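import Pool.Agent.GTO.StmtsB

/-!
# Row CRV: the points on the curve
-/

open scoped BigOperators

noncomputable section

namespace Pool.Agent.GTO.H35

open Finset Real

/-- the angle of the point `j` -/
def ang (n : ℕ) (j : ZMod n) : ℝ := π * (j.val : ℝ) / n

/-- the shift -/
def sft (n : ℕ) : ℝ := π / (2 * n)

/-- the denominator -/
def den (n : ℕ) (j : ZMod n) : ℝ := sin (ang n j - sft n)

theorem sin_ang_sub {n : ℕ} [NeZero n] {i j : ZMod n} (hij : i ≠ j) :
    sin (ang n i - ang n j) ≠ 0 := by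
  intro h
  have hn : (0 : ℝ) < n := by exact_mod_cast Nat.pos_of_ne_zero (NeZero.ne n)
  rw [sin_eq_zero_iff] at h
  obtain ⟨m, hm⟩ := h
  have h1 : (m : ℝ) * n = (i.val : ℝ) - (j.val : ℝ) := by
    unfold ang at hm
    have hpi := pi_pos
    field_simp at hm
    nlinarith [hm]
  have h2 : m * (n : ℤ) = (i.val : ℤ) - (j.val : ℤ) := by exact_mod_cast h1
  have hi : (i.val : ℤ) < n := by exact_mod_cast ZMod.val_lt i
  have hj : (j.val : ℤ) < n := by exact_mod_cast ZMod.val_lt j
  have hi0 : (0 : ℤ) ≤ i.val := Int.natCast_nonneg _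
  have hj0 : (0 : ℤ) ≤ j.val := Int.natCast_nonneg _
  have hnz : (0 : ℤ) < n := by exact_mod_cast hn
  have h3 : m = 0 := by
    rcases lt_trichotomy m 0 with h | h | h
    · nlinarith
    · exact h
    · nlinarith
  rw [h3, zero_mul] at h2
  have h4 : i.val = j.val := by omega
  exact hij (ZMod.val_injective n h4)

theorem den_ne {n : ℕ} [NeZero n] (j : ZMod n) : den n j ≠ 0 := by
  intro h
  have hn : (0 : ℝ) < n := by exact_mod_cast Nat.pos_of_ne_zero (NeZero.ne n)
  unfold den at h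
  rw [sin_eq_zero_iff] at h
  obtain ⟨m, hm⟩ := h
  have h1 : (m : ℝ) * (2 * n) = 2 * (j.val : ℝ) - 1 := by
    unfold ang sft at hm
    have hpi := pi_pos
    field_simp at hm
    nlinarith [hm]
  have h2 : m * (2 * (n : ℤ)) = 2 * (j.val : ℤ) - 1 := by exact_mod_cast h1
  have h3 : 2 * (m * n) = 2 * (j.val : ℤ) - 1 := by rw [← h2]; ring
  omega

theorem cos_sft {n : ℕ} (hn : 3 ≤ n) : cos (sft n) ≠ 0 := by
  apply ne_of_gt
  apply cos_pos_of_mem_Ioo
  have h3 : (3 : ℝ) ≤ n := by exact_mod_cast hn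
  have hpi := pi_pos
  unfold sft
  constructor
  · have : 0 < π / (2 * (n : ℝ)) := by positivity
    linarith
  · apply div_lt_div_of_pos_left hpi (by norm_num) (by linarith)

theorem sin_sum {n : ℕ} [NeZero n] (i j k : ZMod n) :
    sin (ang n i + ang n j + ang n k) = 0 ↔ i + j + k = 0 := by
  have hn : (0 : ℝ) < n := by exact_mod_cast Nat.pos_of_ne_zero (NeZero.ne n)
  have hpi := pi_pos
  have e : (i + j + k : ZMod n) = ((i.val + j.val + k.val : ℕ) : ZMod n) := by
    push_cast
    rw [ZMod.natCast_zmod_val, ZMod.natCast_zmod_val, ZMod.natCast_zmod_val]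
  rw [e, ZMod.natCast_eq_zero_iff, sin_eq_zero_iff]
  constructor
  · rintro ⟨m, hm⟩
    have h1 : (m : ℝ) * n = (i.val : ℝ) + (j.val : ℝ) + (k.val : ℝ) := by
      unfold ang at hm
      field_simp at hm
      nlinarith [hm]
    have h2 : m * (n : ℤ) = ((i.val + j.val + k.val : ℕ) : ℤ) := by
      push_cast
      exact_mod_cast h1
    have h3 : (n : ℤ) ∣ ((i.val + j.val + k.val : ℕ) : ℤ) := ⟨m, by rw [← h2]; ring⟩
    exact_mod_cast h3
  · rintro ⟨m, hm⟩
    refine ⟨m, ?_⟩
    have h1 : (i.val : ℝ) + (j.val : ℝ) + (k.val : ℝ) = n * m := by exact_mod_cast hm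
    unfold ang
    have h2 : π * (i.val : ℝ) / n + π * (j.val : ℝ) / n + π * (k.val : ℝ) / n =
        π * ((i.val : ℝ) + (j.val : ℝ) + (k.val : ℝ)) / n := by ring
    rw [h2, h1]
    field_simp
    push_cast
    ring

theorem det_id (cx sx cy sy cz sz : ℝ) (hx : cx ^ 2 + sx ^ 2 = 1) (hy : cy ^ 2 + sy ^ 2 = 1)
    (hz : cz ^ 2 + sz ^ 2 = 1) :
    (3 * cx ^ 2 * sx - sx ^ 3) * (sy * cz - cy * sz) +
      (3 * cy ^ 2 * sy - sy ^ 3) * (cx * sz - sx * cz) +
      (3 * cz ^ 2 * sz - sz ^ 3) * (sx * cy - cx * sy) =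
    4 * (sx * cy - cx * sy) * (sy * cz - cy * sz) * (sz * cx - cz * sx) *
      (sx * cy * cz + cx * sy * cz + cx * cy * sz - sx * sy * sz) := by
  have key : (3 * cx ^ 2 * sx - sx ^ 3) * (sy * cz - cy * sz) *
        ((cy ^ 2 + sy ^ 2) * (cz ^ 2 + sz ^ 2)) +
      (3 * cy ^ 2 * sy - sy ^ 3) * (cx * sz - sx * cz) *
        ((cx ^ 2 + sx ^ 2) * (cz ^ 2 + sz ^ 2)) +
      (3 * cz ^ 2 * sz - sz ^ 3) * (sx * cy - cx * sy) *
        ((cx ^ 2 + sx ^ 2) * (cy ^ 2 + sy ^ 2)) =
      4 * (sx * cy - cx * sy) * (sy * cz - cy * sz) * (sz * cx - cz * sx) *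
      (sx * cy * cz + cx * sy * cz + cx * cy * sz - sx * sy * sz) := by ring
  rw [hx, hy, hz] at key
  linear_combination key

theorem sin3 (x : ℝ) : sin (3 * x) = 3 * cos x ^ 2 * sin x - sin x ^ 3 := by
  rw [sin_three_mul]
  have h := sin_sq_add_cos_sq x
  have h2 : cos x ^ 2 = 1 - sin x ^ 2 := by linarith
  rw [h2]; ring

theorem det_sin (x y z : ℝ) :
    cos x * (sin (3 * y) * sin z - sin y * sin (3 * z)) -
      sin (3 * x) * (cos y * sin z - sin y * cos z) +
      sin x * (cos y * sin (3 * z) - sin (3 * y) * cos z) =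
    4 * sin (x - y) * sin (y - z) * sin (z - x) * sin (x + y + z) := by
  have e : sin (x + y + z) = sin x * cos y * cos z + cos x * sin y * cos z +
      cos x * cos y * sin z - sin x * sin y * sin z := by
    rw [sin_add, sin_add, cos_add]; ring
  have h := det_id (cos x) (sin x) (cos y) (sin y) (cos z) (sin z)
    (by rw [add_comm]; exact sin_sq_add_cos_sq x) (by rw [add_comm]; exact sin_sq_add_cos_sq y)
    (by rw [add_comm]; exact sin_sq_add_cos_sq z)
  rw [e, sin_sub, sin_sub, sin_sub, sin3, sin3, sin3]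
  linear_combination h

/-- the points -/
def pnt (n : ℕ) (j : ZMod n) : EuclideanSpace ℝ (Fin 2) :=
  WithLp.toLp 2 ![cos (ang n j) / den n j, sin (3 * ang n j) / den n j]

theorem pnt_zero (n : ℕ) (j : ZMod n) : (pnt n j) 0 = cos (ang n j) / den n j := rfl

theorem pnt_one (n : ℕ) (j : ZMod n) : (pnt n j) 1 = sin (3 * ang n j) / den n j := rfl

theorem dt_pnt {n : ℕ} [NeZero n] (i j k : ZMod n) :
    dt (hom (pnt n i)) (hom (pnt n j)) (hom (pnt n k)) * (den n i * den n j * den n k) =
    cos (sft n) * (4 * sin (ang n i - ang n j) * sin (ang n j - ang n k) *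
      sin (ang n k - ang n i) * sin (ang n i + ang n j + ang n k)) := by
  rw [← det_sin]
  have hi := den_ne i
  have hj := den_ne j
  have hk := den_ne k
  have h1 : dt (hom (pnt n i)) (hom (pnt n j)) (hom (pnt n k)) * (den n i * den n j * den n k) =
      cos (ang n i) * (sin (3 * ang n j) * den n k - den n j * sin (3 * ang n k)) -
      sin (3 * ang n i) * (cos (ang n j) * den n k - den n j * cos (ang n k)) +
      den n i * (cos (ang n j) * sin (3 * ang n k) - sin (3 * ang n j) * cos (ang n k)) := by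
    simp only [dt, hom, pnt_zero, pnt_one, Matrix.cons_val_zero, Matrix.cons_val_one,
      Matrix.cons_val]
    field_simp
    try ring
  rw [h1]
  simp only [den, sin_sub]
  ring

theorem crv (_cld : CldStmt) : CrvStmt := by
  intro n _ hn
  have hc := cos_sft hn
  refine ⟨pnt n, ?_, ?_⟩
  · intro i j hij
    by_contra hne
    have h0 : cos (ang n i) / den n i = cos (ang n j) / den n j := by
      rw [← pnt_zero, ← pnt_zero, hij]
    rw [div_eq_div_iff (den_ne i) (den_ne j)] at h0
    have h1 : cos (sft n) * sin (ang n i - ang n j) = 0 := by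
      simp only [den, sin_sub] at h0 ⊢
      linear_combination (-1 : ℝ) * h0
    rcases mul_eq_zero.1 h1 with h | h
    · exact hc h
    · exact sin_ang_sub hne h
  · intro i j k hij hjk hki
    rw [_cld.2, ← sin_sum]
    have h := dt_pnt i j k
    have hd : den n i * den n j * den n k ≠ 0 :=
      mul_ne_zero (mul_ne_zero (den_ne i) (den_ne j)) (den_ne k)
    constructor
    · intro h0
      rw [h0, zero_mul] at h
      have h2 := (mul_eq_zero.1 h.symm).resolve_left hc
      have h3 : 4 * sin (ang n i - ang n j) * sin (ang n j - ang n k) * sin (ang n k - ang n i) ≠ 0 :=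
        mul_ne_zero (mul_ne_zero (mul_ne_zero (by norm_num) (sin_ang_sub hij)) (sin_ang_sub hjk))
          (sin_ang_sub hki)
      exact (mul_eq_zero.1 h2).resolve_left h3
    · intro h0
      rw [h0, mul_zero, mul_zero] at h
      exact (mul_eq_zero.1 h).resolve_right hd

end Pool.Agent.GTO.H35
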