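import Pool.Agent.GTO.StmtsB

/-!
# Row ZS3: zero sum triples
-/

open scoped BigOperators

namespace Pool.Agent.GTO.H35

open Finset

theorem tau_three (m : ℕ) (hm : 0 < m) [NeZero (3 * m)] :
    (univ.filter fun x : ZMod (3 * m) => 3 * x = 0).card = 3 := by
  classical
  have h : (univ.filter fun x : ZMod (3 * m) => 3 * x = 0) =
      {(0 : ZMod (3 * m)), ((m : ℕ) : ZMod (3 * m)), ((2 * m : ℕ) : ZMod (3 * m))} := by
    ext x
    simp only [mem_filter, mem_univ, true_and, mem_insert, mem_singleton]
    constructor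
    · intro hx
      have h1 : ((3 * x.val : ℕ) : ZMod (3 * m)) = 0 := by
        push_cast
        rw [ZMod.natCast_zmod_val]
        exact hx
      rw [ZMod.natCast_eq_zero_iff] at h1
      have h2 : m ∣ x.val := (Nat.mul_dvd_mul_iff_left (by norm_num)).1 h1
      obtain ⟨c, hc⟩ := h2
      have h3 : x.val < 3 * m := ZMod.val_lt x
      have h4 : c < 3 := by
        by_contra hcon
        have : m * 3 ≤ m * c := Nat.mul_le_mul_left m (by omega)
        omega
      have h5 : x = ((x.val : ℕ) : ZMod (3 * m)) := (ZMod.natCast_zmod_val x).symm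
      interval_cases c
      · left; rw [h5, hc]; simp
      · right; left; rw [h5, hc]; simp
      · right; right; rw [h5, hc, Nat.mul_comm m 2]
    · have hz : ((3 * m : ℕ) : ZMod (3 * m)) = 0 := ZMod.natCast_self _
      push_cast at hz
      rintro (rfl | rfl | rfl)
      · simp
      · exact hz
      · push_cast
        calc (3 : ZMod (3 * m)) * (2 * (m : ZMod (3 * m))) = 2 * (3 * (m : ZMod (3 * m))) := by ring
          _ = 0 := by rw [hz, mul_zero]
  rw [h]
  have hv : ∀ a b : ℕ, a < 3 * m → b < 3 * m → ((a : ℕ) : ZMod (3 * m)) = (b : ℕ) → a = b := by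
    intro a b ha hb hab
    rw [ZMod.natCast_eq_natCast_iff'] at hab
    rwa [Nat.mod_eq_of_lt ha, Nat.mod_eq_of_lt hb] at hab
  rw [card_eq_three]
  refine ⟨_, _, _, ?_, ?_, ?_, rfl⟩
  · intro h0
    have := hv 0 m (by omega) (by omega) (by simpa using h0)
    omega
  · intro h0
    have := hv 0 (2 * m) (by omega) (by omega) (by rw [← h0]; simp)
    omega
  · intro h0
    have := hv m (2 * m) (by omega) (by omega) h0
    omega

theorem tau_one (n : ℕ) [NeZero n] (hn : ¬ 3 ∣ n) :
    (univ.filter fun x : ZMod n => 3 * x = 0).card = 1 := by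
  classical
  have h : (univ.filter fun x : ZMod n => 3 * x = 0) = {(0 : ZMod n)} := by
    ext x
    simp only [mem_filter, mem_univ, true_and, mem_singleton]
    constructor
    · intro hx
      have h1 : ((3 * x.val : ℕ) : ZMod n) = 0 := by
        push_cast
        rw [ZMod.natCast_zmod_val]
        exact hx
      rw [ZMod.natCast_eq_zero_iff] at h1
      have hco : Nat.Coprime n 3 :=
        ((Nat.Prime.coprime_iff_not_dvd Nat.prime_three).2 hn).symm
      have h2 : n ∣ x.val := hco.dvd_of_dvd_mul_left h1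
      have h3 : x.val < n := ZMod.val_lt x
      have h4 : x.val = 0 := Nat.eq_zero_of_dvd_of_lt h2 h3
      exact (ZMod.val_eq_zero x).1 h4
    · rintro rfl
      simp
  rw [h, card_singleton]

/-- the pairs `(x, y)` with `x`, `y`, `-x-y` different -/
theorem card_pairs (n : ℕ) [NeZero n] :
    ((univ : Finset (ZMod n × ZMod n)).filter fun p =>
      p.1 ≠ p.2 ∧ p.1 ≠ -p.1 - p.2 ∧ p.2 ≠ -p.1 - p.2).card + 3 * n =
    n ^ 2 + 2 * (univ.filter fun x : ZMod n => 3 * x = 0).card := by
  classical
  set τ := (univ.filter fun x : ZMod n => 3 * x = 0).card with hτ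
  set D : Finset (ZMod n × ZMod n) :=
    (univ.filter fun x : ZMod n => 3 * x = 0).image fun x => (x, x) with hD
  set A : Finset (ZMod n × ZMod n) := univ.image fun x : ZMod n => (x, x) with hA
  set B : Finset (ZMod n × ZMod n) := univ.image fun x : ZMod n => (x, -2 * x) with hB
  set C : Finset (ZMod n × ZMod n) := univ.image fun x : ZMod n => (-2 * x, x) with hC
  have cD : D.card = τ := card_image_of_injective _ (fun x y h => (Prod.ext_iff.1 h).1)
  have cU : (univ : Finset (ZMod n)).card = n := by rw [card_univ, ZMod.card]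
  have cA : A.card = n := by
    rw [hA, card_image_of_injective _ (fun x y h => (Prod.ext_iff.1 h).1), cU]
  have cB : B.card = n := by
    rw [hB, card_image_of_injective _ (fun x y h => (Prod.ext_iff.1 h).1), cU]
  have cC : C.card = n := by
    rw [hC, card_image_of_injective _ (fun x y h => (Prod.ext_iff.1 h).2), cU]
  have mA : ∀ p : ZMod n × ZMod n, p ∈ A ↔ p.1 = p.2 := by
    intro p
    simp only [hA, mem_image, mem_univ, true_and]
    constructor
    · rintro ⟨x, rfl⟩; rfl
    · intro h; exact ⟨p.1, Prod.ext rfl h⟩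
  have mB : ∀ p : ZMod n × ZMod n, p ∈ B ↔ p.1 = -p.1 - p.2 := by
    intro p
    simp only [hB, mem_image, mem_univ, true_and]
    constructor
    · rintro ⟨x, rfl⟩; ring
    · intro h
      refine ⟨p.1, Prod.ext rfl ?_⟩
      show -2 * p.1 = p.2
      linear_combination (-1 : ZMod n) * h
  have mC : ∀ p : ZMod n × ZMod n, p ∈ C ↔ p.2 = -p.1 - p.2 := by
    intro p
    simp only [hC, mem_image, mem_univ, true_and]
    constructor
    · rintro ⟨x, rfl⟩; ring
    · intro h
      refine ⟨p.2, Prod.ext ?_ rfl⟩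
      show -2 * p.2 = p.1
      linear_combination (-1 : ZMod n) * h
  have mD : ∀ p : ZMod n × ZMod n, p ∈ D ↔ p.1 = p.2 ∧ 3 * p.1 = 0 := by
    intro p
    simp only [hD, mem_image, mem_filter, mem_univ, true_and]
    constructor
    · rintro ⟨x, hx, rfl⟩; exact ⟨rfl, hx⟩
    · rintro ⟨h1, h2⟩; exact ⟨p.1, h2, Prod.ext rfl h1⟩
  have iAB : A ∩ B = D := by
    ext p
    rw [mem_inter, mA, mB, mD]
    constructor
    · rintro ⟨h1, h2⟩
      exact ⟨h1, by linear_combination h2 + h1⟩
    · rintro ⟨h1, h2⟩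
      exact ⟨h1, by linear_combination h2 - h1⟩
  have iABC : (A ∪ B) ∩ C = D := by
    ext p
    rw [mem_inter, mem_union, mA, mB, mC, mD]
    constructor
    · rintro ⟨h1 | h1, h2⟩
      · exact ⟨h1, by linear_combination h2 + 2 * h1⟩
      · have h3 : p.1 = p.2 := by linear_combination h1 - h2
        exact ⟨h3, by linear_combination h1 + h3⟩
    · rintro ⟨h1, h2⟩
      exact ⟨Or.inl h1, by linear_combination h2 - 2 * h1⟩
  have e1 := card_union_add_card_inter A B
  have e2 := card_union_add_card_inter (A ∪ B) C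
  rw [iAB, cA, cB, cD] at e1
  rw [iABC, cC, cD] at e2
  have e3 : (univ : Finset (ZMod n × ZMod n)).filter (fun p =>
      p.1 ≠ p.2 ∧ p.1 ≠ -p.1 - p.2 ∧ p.2 ≠ -p.1 - p.2) = (A ∪ B ∪ C)ᶜ := by
    ext p
    rw [mem_filter, mem_compl, mem_union, mem_union, mA, mB, mC]
    simp only [mem_univ, true_and]
    tauto
  have e4 : (A ∪ B ∪ C)ᶜ.card + (A ∪ B ∪ C).card = n ^ 2 := by
    rw [card_compl, Fintype.card_prod, ZMod.card]
    have : (A ∪ B ∪ C).card ≤ n * n := by
      have := card_le_univ (A ∪ B ∪ C)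
      rwa [Fintype.card_prod, ZMod.card] at this
    rw [Nat.sub_add_cancel this, sq]
  rw [e3]
  omega

theorem card_fam (n : ℕ) [NeZero n] :
    ((univ : Finset (ZMod n × ZMod n)).filter fun p =>
      p.1 ≠ p.2 ∧ p.1 ≠ -p.1 - p.2 ∧ p.2 ≠ -p.1 - p.2).card =
    6 * ((univ.powersetCard 3).filter fun S : Finset (ZMod n) => ∑ x ∈ S, x = 0).card := by
  classical
  set P := ((univ : Finset (ZMod n × ZMod n)).filter fun p =>
      p.1 ≠ p.2 ∧ p.1 ≠ -p.1 - p.2 ∧ p.2 ≠ -p.1 - p.2) with hP
  set Fm := ((univ.powersetCard 3).filter fun S : Finset (ZMod n) => ∑ x ∈ S, x = 0) with hF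
  have hmap : ∀ p ∈ P, ({p.1, p.2, -p.1 - p.2} : Finset (ZMod n)) ∈ Fm := by
    intro p hp
    simp only [hP, mem_filter, mem_univ, true_and] at hp
    obtain ⟨h1, h2, h3⟩ := hp
    simp only [hF, mem_filter, mem_powersetCard, subset_univ, true_and]
    refine ⟨?_, ?_⟩
    · rw [card_eq_three]; exact ⟨_, _, _, h1, h2, h3, rfl⟩
    · rw [sum_insert (by simp [h1, h2]), sum_insert (by simp [h3]), sum_singleton]; ring
  rw [card_eq_sum_card_fiberwise hmap, sum_const_nat (m := 6), mul_comm]
  intro S hS
  simp only [hF, mem_filter, mem_powersetCard, subset_univ, true_and] at hS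
  obtain ⟨hc, hs⟩ := hS
  have key : (P.filter fun p => ({p.1, p.2, -p.1 - p.2} : Finset (ZMod n)) = S) = S.offDiag := by
    ext p
    rw [mem_filter, mem_offDiag]
    constructor
    · rintro ⟨hp, hSp⟩
      simp only [hP, mem_filter, mem_univ, true_and] at hp
      rw [← hSp]
      exact ⟨by simp, by simp, hp.1⟩
    · rintro ⟨h1, h2, h3⟩
      have hsub : ({p.1, p.2} : Finset (ZMod n)) ⊆ S := by
        intro x hx
        simp only [mem_insert, mem_singleton] at hx
        rcases hx with rfl | rfl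
        · exact h1
        · exact h2
      have hc2 : ({p.1, p.2} : Finset (ZMod n)).card = 2 := card_pair h3
      have hc1 : (S \ {p.1, p.2}).card = 1 := by
        rw [card_sdiff_of_subset hsub, hc, hc2]
      obtain ⟨z, hz⟩ := card_eq_one.1 hc1
      have hzS : z ∈ S \ {p.1, p.2} := by rw [hz]; simp
      rw [mem_sdiff, mem_insert, mem_singleton, not_or] at hzS
      have hsum : ∑ x ∈ S, x = z + (p.1 + p.2) := by
        rw [← sum_sdiff hsub, hz, sum_singleton, sum_pair h3]
      have hz' : z = -p.1 - p.2 := by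
        rw [hs] at hsum
        linear_combination (-1 : ZMod n) * hsum
      rw [hz'] at hzS hz
      refine ⟨?_, ?_⟩
      · simp only [hP, mem_filter, mem_univ, true_and]
        exact ⟨h3, fun h => hzS.2.1 h.symm, fun h => hzS.2.2 h.symm⟩
      · have hu := sdiff_union_of_subset hsub
        rw [hz] at hu
        rw [← hu]
        ext x
        simp only [mem_insert, mem_singleton, mem_union]
        tauto
  rw [key, offDiag_card, hc]

theorem zs3 : Zs3Stmt := by
  intro n _ hn
  have h1 := card_pairs n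
  rw [card_fam] at h1
  set c := ((univ.powersetCard 3).filter fun S : Finset (ZMod n) => ∑ x ∈ S, x = 0).card with hc
  have hmul : n * (n - 3) + 3 * n = n ^ 2 := by
    obtain ⟨k, rfl⟩ : ∃ k, n = k + 3 := ⟨n - 3, by omega⟩
    rw [Nat.add_sub_cancel]; ring
  by_cases h3 : 3 ∣ n
  · obtain ⟨m, hm⟩ := h3
    subst hm
    rw [tau_three m (by omega)] at h1
    omega
  · rw [tau_one n h3] at h1
    omega

end Pool.Agent.GTO.H35
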